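import Pool.Agent.Helper88.GU.St

set_option autoImplicit false

namespace Pool.Agent.Helper12.GU2

open Polynomial
open Pool.Agent.Helper91.GU
open Pool.Agent.Helper88.GU

universe u

theorem dl_lin (hVD : StVD.{u}) {R A : Type u} [CommRing R] [CommRing A] [Algebra R A]
    {G : Gr A} {m : ℕ} {x : Fin m → A} {e : Fin m → ℕ} (hS : SGr R A G x e) (z : R) :
    dl G (lin x z) = ∑ l : Fin m, C (algebraMap R A (z ^ ((l : ℕ) + 1))) * (C (x l) * br (e l)) := by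
  obtain ⟨-, -, hadd, hmul, hconst, hhom, -⟩ := hVD A G
  have h0 : dl G (0 : A) = 0 := hconst 0 (by rw [map_zero, map_zero])
  have hsum : ∀ (s : Finset (Fin m)) (f : Fin m → A), dl G (∑ l ∈ s, f l) = ∑ l ∈ s, dl G (f l) := by
    intro s f
    classical
    induction s using Finset.induction_on with
    | empty => simpa using h0
    | insert a s ha ih => rw [Finset.sum_insert ha, Finset.sum_insert ha, hadd, ih]
  unfold lin
  rw [hsum]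
  refine Finset.sum_congr rfl fun l _ => ?_
  rw [hmul, hconst _ (hS.r0 _), hS.r0, hhom _ _ (hS.deg l), zero_mul, zero_add]

theorem mem_of_le {R A : Type u} [CommRing R] [CommRing A] [Algebra R A] {𝔨 : Ideal R} {v₀ : A}
    (hv₀ : v₀ ∈ 𝔨.map (algebraMap R A)) (Q : Ideal A) (h : v₀ ∉ Q) :
    ¬ 𝔨 ≤ Q.comap (algebraMap R A) := fun hle => h (Ideal.map_le_iff_le_comap.2 hle hv₀)

theorem mem_of_le' {R A : Type u} [CommRing R] [CommRing A] [Algebra R A] {𝔨 : Ideal R} {v₀ : A}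
    (hv₀ : v₀ ∈ 𝔨.map (algebraMap R A)) (Q : Ideal A[X]) (h : C v₀ ∉ Q) :
    ¬ 𝔨 ≤ Q.comap (algebraMap R A[X]) := by
  intro hle
  have h1 : 𝔨 ≤ (Q.comap (C : A →+* A[X])).comap (algebraMap R A) := hle
  exact h (Ideal.map_le_iff_le_comap.2 h1 hv₀)

theorem coeff_g {A : Type u} [CommRing A] {m : ℕ} (a : A) (b : Fin m → A) (l : Fin m) :
    (C a + ∑ j : Fin m, C (b j) * X ^ ((j : ℕ) + 1) : A[X]).coeff ((l : ℕ) + 1) = b l := by
  rw [coeff_add, coeff_C, if_neg (Nat.succ_ne_zero _), zero_add, finsetSum_coeff]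
  rw [Finset.sum_eq_single l]
  · rw [coeff_C_mul, coeff_X_pow, if_pos rfl, mul_one]
  · intro j _ hj
    rw [coeff_C_mul, coeff_X_pow, if_neg, mul_zero]
    intro h
    exact hj (Fin.ext (by omega))
  · intro h; exact absurd (Finset.mem_univ l) h

theorem hXA (hVC : StVC.{u}) (hVD : StVD.{u}) : StXA.{u} := by
  intro R A _ _ _ _ G m x e hS 𝔨 hSup v₀ c hv₀ 𝒥a 𝒥b 𝒬 ha hb hq hQ
  -- first choice
  set g : A[X][X] := C (C v₀ * dl G c - C c * dl G v₀) +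
    ∑ l : Fin m, C (C v₀ * G.Γ v₀ * (C (x l) * br (e l))) * X ^ ((l : ℕ) + 1) with hg
  set S₁ : Set (Ideal A[X] × A[X][X]) :=
    (fun Q => (Q, g)) '' {Q | (∃ J ∈ 𝒥a, Q ∈ J.minimalPrimes) ∧ RU G x e v₀ Q} with hS₁
  have hfinMin : ∀ (𝒥 : Set (Ideal A[X])), 𝒥.Finite → {Q | ∃ J ∈ 𝒥, Q ∈ J.minimalPrimes}.Finite := by
    intro 𝒥 h
    have : {Q : Ideal A[X] | ∃ J ∈ 𝒥, Q ∈ J.minimalPrimes} = ⋃ J ∈ 𝒥, J.minimalPrimes := by
      ext Q; simp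
    rw [this]
    exact h.biUnion fun J _ => Ideal.finite_minimalPrimes_of_isNoetherianRing _ J
  have hfinMin' : ∀ (𝒥 : Set (Ideal A)), 𝒥.Finite → {Q | ∃ J ∈ 𝒥, Q ∈ J.minimalPrimes}.Finite := by
    intro 𝒥 h
    have : {Q : Ideal A | ∃ J ∈ 𝒥, Q ∈ J.minimalPrimes} = ⋃ J ∈ 𝒥, J.minimalPrimes := by
      ext Q; simp
    rw [this]
    exact h.biUnion fun J _ => Ideal.finite_minimalPrimes_of_isNoetherianRing _ J
  have hS₁f : S₁.Finite := ((hfinMin 𝒥a ha).subset fun Q hQ => hQ.1).image _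
  obtain ⟨z, hz𝔨, hz, -⟩ := hSup A[X] A S₁ ∅ hS₁f Set.finite_empty (by
    rintro _ ⟨Q, ⟨⟨J, hJ, hQJ⟩, hRU⟩, rfl⟩
    have hprime : Q.IsPrime := hQJ.1.1
    refine ⟨hprime, mem_of_le' hv₀ Q hRU.1, ?_⟩
    obtain ⟨h1, h2, l, h3⟩ := hRU
    refine ⟨(l : ℕ) + 1, ?_⟩
    show g.coeff ((l : ℕ) + 1) ∉ Q
    rw [hg, coeff_g]
    intro hmem
    rcases hprime.mem_or_mem hmem with h4 | h4
    · rcases hprime.mem_or_mem h4 with h5 | h5
      · exact h1 h5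
      · exact h2 h5
    · exact h3 h4) (by simp)
  have hlin := dl_lin hVD hS z
  set Ψ : A[X] := g.eval (algebraMap R A[X] z) with hΨ
  have hΨeq : Ψ = C v₀ * dl G c - C c * dl G v₀ + C v₀ * G.Γ v₀ * dl G (lin x z) := by
    rw [hΨ, hg, eval_add, eval_C, eval_finsetSum, hlin, Finset.mul_sum]
    congr 1
    refine Finset.sum_congr rfl fun l _ => ?_
    rw [eval_mul, eval_C, eval_pow, eval_X, Polynomial.algebraMap_apply, ← C_pow, ← map_pow]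
    ring
  have hz' : ∀ J ∈ 𝒥a, ∀ Q ∈ J.minimalPrimes, RU G x e v₀ Q → Ψ ∉ Q := by
    intro J hJ Q hQJ hRU
    exact hz (Q, g) ⟨Q, ⟨⟨J, hJ, hQJ⟩, hRU⟩, rfl⟩
  -- second choice
  set f : A := c + v₀ * lin x z with hf
  set T₁ : Set (Ideal A[X] × A[X][X]) :=
    (fun Q => (Q, C (C f) + C (C v₀) * X)) ''
      {Q | (∃ J ∈ (fun J => J ⊔ Ideal.span {Ψ}) '' 𝒥a, Q ∈ J.minimalPrimes) ∧ RU G x e v₀ Q}
    with hT₁
  set T₂ : Set (Ideal A × A[X]) :=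
    (fun Q => (Q, C f + C v₀ * X)) ''
      {Q | ((∃ J ∈ 𝒥b, Q ∈ J.minimalPrimes) ∨ Q ∈ 𝒬) ∧ v₀ ∉ Q} with hT₂
  have hT₁f : T₁.Finite := ((hfinMin _ (ha.image _)).subset fun Q hQ => hQ.1).image _
  have hT₂f : T₂.Finite := (((hfinMin' 𝒥b hb).union hq).subset (by
    rintro Q ⟨h | h, -⟩
    · exact Or.inl h
    · exact Or.inr h)).image _
  obtain ⟨γ, hγ𝔨, hγ₁, hγ₂⟩ := hSup A[X] A T₁ T₂ hT₁f hT₂f (by
    rintro _ ⟨Q, ⟨⟨J, hJ, hQJ⟩, hRU⟩, rfl⟩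
    refine ⟨hQJ.1.1, mem_of_le' hv₀ Q hRU.1, 1, ?_⟩
    show (C (C f) + C (C v₀) * X : A[X][X]).coeff 1 ∉ Q
    rw [coeff_add, coeff_C, if_neg one_ne_zero, zero_add, coeff_C_mul, coeff_X_one, mul_one]
    exact hRU.1) (by
    rintro _ ⟨Q, ⟨hQ', hv⟩, rfl⟩
    have hprime : Q.IsPrime := by
      rcases hQ' with ⟨J, _, hJ⟩ | h
      · exact hJ.1.1
      · exact (hQ Q h).1
    refine ⟨hprime, mem_of_le hv₀ Q hv, 1, ?_⟩
    show (C f + C v₀ * X : A[X]).coeff 1 ∉ Q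
    rw [coeff_add, coeff_C, if_neg one_ne_zero, zero_add, coeff_C_mul, coeff_X_one, mul_one]
    exact hv)
  set c' : A := c + v₀ * (algebraMap R A γ + lin x z) with hc'
  have hc'f : c' = f + v₀ * algebraMap R A γ := by rw [hc', hf]; ring
  have hγ₁' : ∀ J ∈ 𝒥a, ∀ Q ∈ (J ⊔ Ideal.span {Ψ}).minimalPrimes, RU G x e v₀ Q → C c' ∉ Q := by
    intro J hJ Q hQJ hRU
    have h1 := hγ₁ (Q, C (C f) + C (C v₀) * X) ⟨Q, ⟨⟨_, ⟨J, hJ, rfl⟩, hQJ⟩, hRU⟩, rfl⟩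
    have h2 : (C (C f) + C (C v₀) * X : A[X][X]).eval (algebraMap R A[X] γ) = C c' := by
      rw [eval_add, eval_C, eval_mul, eval_C, eval_X, Polynomial.algebraMap_apply, hc'f, ← C_mul,
        ← C_add]
    rwa [h2] at h1
  have hγ₂' : ∀ Q : Ideal A, ((∃ J ∈ 𝒥b, Q ∈ J.minimalPrimes) ∨ Q ∈ 𝒬) → v₀ ∉ Q → c' ∉ Q := by
    intro Q hQ' hv
    have h1 := hγ₂ (Q, C f + C v₀ * X) ⟨Q, ⟨hQ', hv⟩, rfl⟩
    have h2 : (C f + C v₀ * X : A[X]).eval (algebraMap R A γ) = c' := by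
      rw [eval_add, eval_C, eval_mul, eval_C, eval_X, hc'f]
    rwa [h2] at h1
  refine ⟨z, hz𝔨, γ, hγ𝔨, ?_, ?_, ?_⟩
  · intro J hJ t ht P hP hJP hRU hC hdl
    have hmono : ∀ P P' : Ideal A[X], P ≤ P' → RU G x e v₀ P' → RU G x e v₀ P := by
      rintro P P' hle ⟨h1, h2, l, h3⟩
      exact ⟨fun h => h1 (hle h), fun h => h2 (hle h), l, fun h => h3 (hle h)⟩
    have h1 := hVC A[X] J Ψ t (RU G x e v₀) hmono (hz' J hJ) ht
    have hΨP : Ψ ∈ P := by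
      have h2 := (hVD A G).2.2.2.2.2.2 c v₀ (algebraMap R A γ) (lin x z) (hS.r0 γ)
      rw [hΨeq, ← h2]
      exact P.sub_mem (P.mul_mem_left _ hdl) (P.mul_mem_right _ hC)
    have h3 := hVC A[X] (J ⊔ Ideal.span {Ψ}) (C c') (t + 1) (RU G x e v₀) hmono (hγ₁' J hJ) (by
      intro P' hP' hle hRU'
      refine h1 P' hP' (le_trans le_sup_left hle) hRU' ?_
      exact hle ((le_sup_right : Ideal.span {Ψ} ≤ J ⊔ Ideal.span {Ψ})
        (Ideal.mem_span_singleton_self Ψ)))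
    refine h3 P hP (sup_le hJP ?_) hRU hC
    rw [Ideal.span_singleton_le_iff_mem]
    exact hΨP
  · intro J hJ Rg hmono hRg t ht P hP hJP hR hcP
    exact hVC A J c' t Rg hmono (fun Q hQ' hR' => hγ₂' Q (Or.inl ⟨J, hJ, hQ'⟩) (hRg Q hR')) ht
      P hP hJP hR hcP
  · intro Q hQ' hv
    exact hγ₂' Q (Or.inr hQ') hv

end Pool.Agent.Helper12.GU2
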